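import Pool.Agent.LE.StmtsI
import Pool.Agent.Helper32_BED.Nash
import Pool.Agent.Helper32_BED.Seq

/-!
# Squad LIR, HKE: powers of `T = 1 - (E - H) / (8 d)`
-/

set_option autoImplicit false

open MeasureTheory ProbabilityTheory Function Filter

open scoped ENNReal BigOperators Topology NNReal

noncomputable section

namespace Pool.Agent.LE.IR.H19

open Pool.Agent.Anderson hiding box mem_box card_box
open Pool.Agent.Loc Pool.Agent.Mob Pool.Agent.BED

variable {d M : ℕ} [NeZero M]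

theorem TM_shift (z lam : ℝ) (V : Tor d M → ℝ) :
    TM (z - lam) V = TM z V + (lam / (8 * d)) • (1 : Matrix (Tor d M) (Tor d M) ℝ) := by
  ext x y
  unfold TM
  rw [AM_sub]
  rw [Matrix.sub_apply, Matrix.add_apply, Matrix.sub_apply, Matrix.smul_apply, Matrix.smul_apply,
    Matrix.smul_apply, Matrix.sub_apply, Matrix.smul_apply, smul_eq_mul, smul_eq_mul, smul_eq_mul,
    smul_eq_mul]
  ring

theorem TM_pow (z lam : ℝ) (V : Tor d M → ℝ) (n : ℕ) (x y : Tor d M) :
    (TM (z - lam) V ^ n) x y = ∑ j ∈ Finset.range (n + 1),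
      ((lam / (8 * d)) ^ (n - j) * (n.choose j : ℝ)) * (TM z V ^ j) x y := by
  rw [TM_shift]
  have hc : Commute (TM z V) ((lam / (8 * d)) • (1 : Matrix (Tor d M) (Tor d M) ℝ)) :=
    (Commute.one_right _).smul_right _
  rw [hc.add_pow, Matrix.sum_apply]
  refine Finset.sum_congr rfl fun j _ => ?_
  rw [smul_pow, one_pow, mul_smul_comm, mul_one, ← nsmul_eq_mul', Matrix.smul_apply,
    Matrix.smul_apply, smul_eq_mul, nsmul_eq_mul]
  ring

theorem pow_nonneg_entries {X : Type} [Fintype X] [DecidableEq X] {A : Matrix X X ℝ}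
    (hA : ∀ x y, 0 ≤ A x y) : ∀ (n : ℕ) (x y : X), 0 ≤ (A ^ n) x y := by
  intro n
  induction n with
  | zero =>
    intro x y
    rw [pow_zero, Matrix.one_apply]
    split_ifs <;> norm_num
  | succ n ih =>
    intro x y
    rw [pow_succ, Matrix.mul_apply]
    exact Finset.sum_nonneg fun w _ => mul_nonneg (ih x w) (hA w y)

/-- the mass of the rows -/
theorem mass_step (hd : 1 ≤ d) {z μ ε lam : ℝ} {V : Tor d M → ℝ} (hμ : 0 < μ) (hε : 0 < ε)
    (hε' : ε ≤ 1 / 50) (hF : FlatE ε z μ V) (hlam : 0 ≤ lam)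
    (hT : ∀ x y, 0 ≤ TM (z - lam) V x y) (x : Tor d M) (n : ℕ) :
    |∑ y, (TM (z - lam) V ^ (n + 1)) x y * om z μ V y -
      ∑ y, (TM (z - lam) V ^ n) x y * om z μ V y| ≤
      (lam + 1 / μ) / 7 * ∑ y, (TM (z - lam) V ^ n) x y * om z μ V y := by
  obtain ⟨hV, hA, hD⟩ := hF
  have hd1 : (1 : ℝ) ≤ d := by exact_mod_cast hd
  have hom : ∀ y, 49 / 50 ≤ om z μ V y := by
    intro y
    unfold om
    rw [le_div_iff₀ hμ]
    have h1 := (abs_le.1 (hD y)).1
    have h2 : ε * μ ≤ 1 / 50 * μ := mul_le_mul_of_nonneg_right hε' hμ.le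
    linarith
  have h1 : ∀ y, ∑ w, TM (z - lam) V y w * om z μ V w =
      (1 + lam / (8 * d)) * om z μ V y - 1 / (8 * d * μ) := by
    intro y
    have h2 := H32.TM_mulVec (z - lam) V (fun w => DD z V w) y
    have h3 : (AM (z - lam) V).mulVec (fun w => DD z V w) y = 1 - lam * DD z V y := by
      rw [AM_sub, Matrix.sub_mulVec, Matrix.smul_mulVec, Matrix.one_mulVec]
      rw [Pi.sub_apply, Pi.smul_apply, smul_eq_mul]
      have h4 := congrFun (AM_DD hA) y
      rw [h4]
      rfl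
    rw [h3] at h2
    have h5 : ∑ w, TM (z - lam) V y w * om z μ V w =
        ((TM (z - lam) V).mulVec (fun w => DD z V w) y) / μ := by
      unfold Matrix.mulVec dotProduct om
      rw [Finset.sum_div]
      exact Finset.sum_congr rfl fun w _ => by ring
    rw [h5, h2]
    unfold om
    field_simp
    ring
  have hP := pow_nonneg_entries hT n x
  have h6 : ∑ y, (TM (z - lam) V ^ (n + 1)) x y * om z μ V y =
      ∑ y, (TM (z - lam) V ^ n) x y * ((1 + lam / (8 * d)) * om z μ V y - 1 / (8 * d * μ)) := by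
    rw [pow_succ]
    simp only [Matrix.mul_apply, Finset.sum_mul]
    rw [Finset.sum_comm]
    refine Finset.sum_congr rfl fun y _ => ?_
    rw [← h1 y, Finset.mul_sum]
    exact Finset.sum_congr rfl fun w _ => by ring
  rw [h6, ← Finset.sum_sub_distrib]
  refine (Finset.abs_sum_le_sum_abs _ _).trans ?_
  rw [Finset.mul_sum]
  refine Finset.sum_le_sum fun y _ => ?_
  have h7 : (TM (z - lam) V ^ n) x y * ((1 + lam / (8 * d)) * om z μ V y - 1 / (8 * d * μ)) -
      (TM (z - lam) V ^ n) x y * om z μ V y =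
      (TM (z - lam) V ^ n) x y * (lam / (8 * d) * om z μ V y - 1 / (8 * d * μ)) := by ring
  rw [h7, abs_mul, abs_of_nonneg (hP y)]
  have h8 : |lam / (8 * d) * om z μ V y - 1 / (8 * d * μ)| ≤ (lam + 1 / μ) / 7 * om z μ V y := by
    have ho := hom y
    have ho0 : 0 ≤ om z μ V y := by linarith
    have a1 : lam / (8 * d) ≤ lam / 8 := by
      apply div_le_div_of_nonneg_left hlam (by norm_num)
      linarith
    have a1' : 0 ≤ lam / (8 * d) := by positivity
    have a2 : 1 / (8 * d * μ) ≤ (1 / μ) / 8 := by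
      rw [div_div]
      apply div_le_div_of_nonneg_left (by norm_num) (by positivity)
      nlinarith
    have a2' : 0 ≤ 1 / (8 * d * μ) := by positivity
    have a3 : 0 ≤ 1 / μ := by positivity
    have a4 : lam / (8 * d) * om z μ V y ≤ lam / 8 * om z μ V y :=
      mul_le_mul_of_nonneg_right a1 ho0
    have a4' : 0 ≤ lam / (8 * d) * om z μ V y := mul_nonneg a1' ho0
    have a5 : (1 / μ) / 8 ≤ (1 / μ) / 7 * om z μ V y := by
      have : (1 / μ) / 7 * (49 / 50) ≤ (1 / μ) / 7 * om z μ V y :=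
        mul_le_mul_of_nonneg_left ho (by positivity)
      linarith
    have a6 : 0 ≤ lam * om z μ V y := mul_nonneg hlam ho0
    rw [abs_le]
    constructor
    · nlinarith
    · nlinarith
  calc (TM (z - lam) V ^ n) x y * |lam / (8 * d) * om z μ V y - 1 / (8 * d * μ)| ≤
      (TM (z - lam) V ^ n) x y * ((lam + 1 / μ) / 7 * om z μ V y) :=
        mul_le_mul_of_nonneg_left h8 (hP y)
    _ = _ := by ring

theorem mass_all (a : ℕ → ℝ) (q : ℝ) (hq : 0 ≤ q) (n : ℕ) (hn : n * q ≤ 1 / 7)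
    (h0 : a 0 ≤ 3 / 2) (h0' : 0 ≤ a 0) (hs : ∀ k, |a (k + 1) - a k| ≤ q * a k) :
    ∀ k, k ≤ n → a k ≤ 3 / 2 * (1 + q) ^ k ∧ |a k - a 0| ≤ 2 * (k * q) := by
  have hexp : ∀ k, k ≤ n → 3 / 2 * (1 + q) ^ k ≤ 2 := by
    intro k hk
    have h1 : (1 + q) ^ k ≤ Real.exp (k * q) := by
      rw [Real.exp_nat_mul]
      have : 1 + q ≤ Real.exp q := by
        have := Real.add_one_le_exp q
        linarith
      exact pow_le_pow_left₀ (by linarith) this k
    have h2 : (k : ℝ) * q ≤ 1 / 7 := by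
      refine le_trans ?_ hn
      exact mul_le_mul_of_nonneg_right (by exact_mod_cast hk) hq
    have h3 : Real.exp (k * q) ≤ 4 / 3 := by
      refine (Real.exp_le_exp.2 h2).trans ?_
      have := Real.exp_bound_div_one_sub_of_interval (x := 1 / 7) (by norm_num) (by norm_num)
      linarith
    linarith
  intro k
  induction k with
  | zero =>
    intro _
    refine ⟨by rw [pow_zero]; linarith, ?_⟩
    rw [sub_self, abs_zero]
    simp
  | succ k ih =>
    intro hk
    obtain ⟨h1, h2⟩ := ih (by omega)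
    have h3 := hs k
    have h4 : q * a k ≤ q * (3 / 2 * (1 + q) ^ k) := mul_le_mul_of_nonneg_left h1 hq
    have h5 := hexp k (by omega)
    constructor
    · have h6 := (abs_le.1 h3).2
      calc a (k + 1) ≤ a k + q * a k := by linarith
        _ ≤ 3 / 2 * (1 + q) ^ k + q * (3 / 2 * (1 + q) ^ k) := by linarith
        _ = 3 / 2 * (1 + q) ^ (k + 1) := by ring
    · have h6 : |a (k + 1) - a 0| ≤ |a (k + 1) - a k| + |a k - a 0| := abs_sub_le _ _ _
      have h7 : q * (3 / 2 * (1 + q) ^ k) ≤ q * 2 := mul_le_mul_of_nonneg_left h5 hq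
      push_cast
      linarith

/-- the decay of the powers -/
theorem decay (hd : 1 ≤ d) (K ℓ : ℝ) (hK : 0 ≤ K) (hℓ : 0 ≤ ℓ) (n : ℕ) (hn : n * ℓ ≤ 1 / 8)
    (P : ℕ → Tor d M → ℝ) (hP : ∀ j, j ≤ n → ∑ y, (P j y) ^ 2 ≤ K * ((j : ℝ) + 1) ^ (-(d : ℝ) / 2)) :
    ∑ y, (∑ j ∈ Finset.range (n + 1), (ℓ ^ (n - j) * (n.choose j : ℝ)) * P j y) ^ 2 ≤
      (K * (Real.exp 1 * (Real.exp 1 * (d.factorial * Real.exp 1)))) *
        ((n : ℝ) + 1) ^ (-(d : ℝ) / 2) := by
  have hw : ∀ j, 0 ≤ ℓ ^ (n - j) * (n.choose j : ℝ) := fun j => by positivity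
  have hsum : ∀ t : ℝ, ∑ j ∈ Finset.range (n + 1), (t ^ (n - j) * (n.choose j : ℝ)) = (1 + t) ^ n := by
    intro t
    rw [add_pow]
    refine Finset.sum_congr rfl fun j _ => ?_
    rw [one_pow, one_mul]
  have he1 : (1 : ℝ) ≤ Real.exp 1 := by
    have := Real.add_one_le_exp (1 : ℝ)
    linarith
  have hb1 : (1 + ℓ) ^ n ≤ Real.exp 1 := by
    have h1 : (1 + ℓ) ^ n ≤ Real.exp (n * ℓ) := by
      rw [Real.exp_nat_mul]
      have : 1 + ℓ ≤ Real.exp ℓ := by
        have := Real.add_one_le_exp ℓ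
        linarith
      exact pow_le_pow_left₀ (by linarith) this n
    exact h1.trans (Real.exp_le_exp.2 (by linarith))
  have hb2 : (1 + Real.exp 1 * ℓ) ^ n ≤ Real.exp 1 := by
    have h0 : 0 ≤ Real.exp 1 * ℓ := by positivity
    have h1 : (1 + Real.exp 1 * ℓ) ^ n ≤ Real.exp (n * (Real.exp 1 * ℓ)) := by
      rw [Real.exp_nat_mul]
      have : 1 + Real.exp 1 * ℓ ≤ Real.exp (Real.exp 1 * ℓ) := by
        have := Real.add_one_le_exp (Real.exp 1 * ℓ)
        linarith
      exact pow_le_pow_left₀ (by linarith) this n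
    refine h1.trans (Real.exp_le_exp.2 ?_)
    have h2 := Real.exp_one_lt_d9
    have h3 : (n : ℝ) * (Real.exp 1 * ℓ) = Real.exp 1 * (n * ℓ) := by ring
    rw [h3]
    have h4 : Real.exp 1 * (n * ℓ) ≤ Real.exp 1 * (1 / 8) :=
      mul_le_mul_of_nonneg_left hn (by positivity)
    linarith
  have hd0 : (0 : ℝ) ≤ (d : ℝ) / 2 := by positivity
  have key : ∀ j, j ≤ n → (ℓ ^ (n - j) * (n.choose j : ℝ)) * (K * ((j : ℝ) + 1) ^ (-(d : ℝ) / 2)) ≤
      (((Real.exp 1 * ℓ) ^ (n - j) * (n.choose j : ℝ)) * (K * (d.factorial * Real.exp 1))) *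
        ((n : ℝ) + 1) ^ (-(d : ℝ) / 2) := by
    intro j hj
    obtain ⟨i, rfl⟩ := Nat.exists_eq_add_of_le hj
    rw [Nat.add_sub_cancel_left]
    have hj1 : (0 : ℝ) < (j : ℝ) + 1 := by positivity
    have hi1 : (0 : ℝ) < (i : ℝ) + 1 := by positivity
    have hn1 : (0 : ℝ) < ((j + i : ℕ) : ℝ) + 1 := by positivity
    have h1 : (((j + i : ℕ) : ℝ) + 1) ≤ ((j : ℝ) + 1) * ((i : ℝ) + 1) := by
      push_cast
      have : (0 : ℝ) ≤ (j : ℝ) * i := by positivity
      nlinarith
    have h2 : (((j + i : ℕ) : ℝ) + 1) ^ ((d : ℝ) / 2) ≤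
        ((j : ℝ) + 1) ^ ((d : ℝ) / 2) * ((i : ℝ) + 1) ^ ((d : ℝ) / 2) := by
      rw [← Real.mul_rpow hj1.le hi1.le]
      exact Real.rpow_le_rpow hn1.le h1 hd0
    have h3 : ((i : ℝ) + 1) ^ ((d : ℝ) / 2) ≤ d.factorial * (Real.exp 1 * Real.exp 1 ^ i) := by
      have h4 : ((i : ℝ) + 1) ^ ((d : ℝ) / 2) ≤ ((i : ℝ) + 1) ^ (d : ℝ) := by
        apply Real.rpow_le_rpow_of_exponent_le
        · have : (0 : ℝ) ≤ i := by positivity
          linarith
        · have : (0 : ℝ) ≤ (d : ℝ) := by positivity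
          linarith
      rw [Real.rpow_natCast] at h4
      have h5 := Real.pow_div_factorial_le_exp ((i : ℝ) + 1) hi1.le d
      rw [div_le_iff₀ (by positivity)] at h5
      have h6 : Real.exp ((i : ℝ) + 1) = Real.exp 1 * Real.exp 1 ^ i := by
        rw [Real.exp_add, ← Real.exp_nat_mul, mul_one, mul_comm]
      rw [h6] at h5
      calc _ ≤ _ := h4
        _ ≤ _ := h5
        _ = _ := by ring
    have h7 : ((j : ℝ) + 1) ^ (-(d : ℝ) / 2) ≤
        (d.factorial * (Real.exp 1 * Real.exp 1 ^ i)) * (((j + i : ℕ) : ℝ) + 1) ^ (-(d : ℝ) / 2) := by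
      rw [neg_div, Real.rpow_neg hj1.le, Real.rpow_neg hn1.le, ← div_eq_mul_inv,
        le_div_iff₀ (Real.rpow_pos_of_pos hn1 _), inv_mul_le_iff₀ (Real.rpow_pos_of_pos hj1 _)]
      refine h2.trans ?_
      exact mul_le_mul_of_nonneg_left h3 (Real.rpow_nonneg hj1.le _)
    calc (ℓ ^ i * ((j + i).choose j : ℝ)) * (K * ((j : ℝ) + 1) ^ (-(d : ℝ) / 2)) ≤
        (ℓ ^ i * ((j + i).choose j : ℝ)) * (K * ((d.factorial * (Real.exp 1 * Real.exp 1 ^ i)) *
          (((j + i : ℕ) : ℝ) + 1) ^ (-(d : ℝ) / 2))) :=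
          mul_le_mul_of_nonneg_left (mul_le_mul_of_nonneg_left h7 hK) (by positivity)
      _ = _ := by
        rw [mul_pow]
        ring
  have hCS : ∀ y, (∑ j ∈ Finset.range (n + 1), (ℓ ^ (n - j) * (n.choose j : ℝ)) * P j y) ^ 2 ≤
      (1 + ℓ) ^ n * ∑ j ∈ Finset.range (n + 1), (ℓ ^ (n - j) * (n.choose j : ℝ)) * (P j y) ^ 2 := by
    intro y
    rw [← hsum ℓ]
    apply Finset.sum_sq_le_sum_mul_sum_of_sq_le_mul
    · intro j _
      exact hw j
    · intro j _
      exact mul_nonneg (hw j) (sq_nonneg _)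
    · intro j _
      exact le_of_eq (by ring)
  calc ∑ y, (∑ j ∈ Finset.range (n + 1), (ℓ ^ (n - j) * (n.choose j : ℝ)) * P j y) ^ 2
      ≤ ∑ y, (1 + ℓ) ^ n * ∑ j ∈ Finset.range (n + 1),
          (ℓ ^ (n - j) * (n.choose j : ℝ)) * (P j y) ^ 2 := Finset.sum_le_sum fun y _ => hCS y
    _ = (1 + ℓ) ^ n * ∑ j ∈ Finset.range (n + 1),
          (ℓ ^ (n - j) * (n.choose j : ℝ)) * ∑ y, (P j y) ^ 2 := by
        rw [← Finset.mul_sum, Finset.sum_comm]
        congr 1
        exact Finset.sum_congr rfl fun j _ => by rw [Finset.mul_sum]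
    _ ≤ (1 + ℓ) ^ n * ∑ j ∈ Finset.range (n + 1),
          (((Real.exp 1 * ℓ) ^ (n - j) * (n.choose j : ℝ)) * (K * (d.factorial * Real.exp 1))) *
          ((n : ℝ) + 1) ^ (-(d : ℝ) / 2) := by
        refine mul_le_mul_of_nonneg_left (Finset.sum_le_sum fun j hj => ?_) (by positivity)
        have hj' : j ≤ n := by
          rw [Finset.mem_range] at hj
          omega
        exact (mul_le_mul_of_nonneg_left (hP j hj') (hw j)).trans (key j hj')
    _ = (1 + ℓ) ^ n * ((1 + Real.exp 1 * ℓ) ^ n * (K * (d.factorial * Real.exp 1))) *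
          ((n : ℝ) + 1) ^ (-(d : ℝ) / 2) := by
        rw [← Finset.sum_mul, ← Finset.sum_mul, hsum]
        ring
    _ ≤ Real.exp 1 * (Real.exp 1 * (K * (d.factorial * Real.exp 1))) *
          ((n : ℝ) + 1) ^ (-(d : ℝ) / 2) := by
        refine mul_le_mul_of_nonneg_right ?_ (Real.rpow_nonneg (by positivity) _)
        have h0 : 0 ≤ K * (d.factorial * Real.exp 1) := by positivity
        exact mul_le_mul hb1 (mul_le_mul_of_nonneg_right hb2 h0) (by positivity) (by positivity)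
    _ = _ := by ring

theorem hke : HkeStmt := by
  intro d hd
  have hK : 0 ≤ KH d := by unfold KH; positivity
  refine ⟨KH d * (Real.exp 1 * (Real.exp 1 * (d.factorial * Real.exp 1))) + 1, ?_, ?_⟩
  · have : 0 ≤ KH d * (Real.exp 1 * (Real.exp 1 * (d.factorial * Real.exp 1))) := by positivity
    linarith
  intro M _ z μ ε lam V n x hz hμ hε hε' hF hlam hn hM
  have hC0 : 0 ≤ KH d * (Real.exp 1 * (Real.exp 1 * (d.factorial * Real.exp 1))) := by positivity
  have hF' := hF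
  obtain ⟨hV, hA, hD⟩ := hF'
  have hd1 : (1 : ℝ) ≤ d := by exact_mod_cast hd
  have hεμ : ε * μ ≤ 1 / 50 * μ := mul_le_mul_of_nonneg_right hε' hμ.le
  have hH := H32.heat H32.nash H32.seq d M hd z V ((1 - ε) * μ) hz hV hA
    (mul_pos (by linarith) hμ)
    (fun x => by
      have := (abs_le.1 (hD x)).1
      linarith)
    (fun x => by
      have := (abs_le.1 (hD x)).2
      linarith)
  obtain ⟨hT0, -, hdec, -, -, -⟩ := hH
  have hT : ∀ x y, 0 ≤ TM (z - lam) V x y := by
    intro x y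
    rw [TM_shift, Matrix.add_apply, Matrix.smul_apply, smul_eq_mul]
    have h1 : 0 ≤ lam / (8 * (d : ℝ)) := by positivity
    have h2 : (0 : ℝ) ≤ (1 : Matrix (Tor d M) (Tor d M) ℝ) x y := by
      rw [Matrix.one_apply]
      split_ifs <;> norm_num
    exact add_nonneg (hT0 x y) (mul_nonneg h1 h2)
  have hnℓ : (n : ℝ) * lam ≤ 1 := by
    have h1 : 0 ≤ (n : ℝ) * (1 / μ) := by positivity
    nlinarith
  refine ⟨pow_nonneg_entries hT n x, ?_, ?_⟩
  · set a : ℕ → ℝ := fun k => ∑ y, (TM (z - lam) V ^ k) x y * om z μ V y with ha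
    have hom0 : a 0 = om z μ V x := by
      rw [ha]
      simp only [pow_zero]
      rw [Finset.sum_eq_single x]
      · rw [Matrix.one_apply_eq, one_mul]
      · intro y _ hy
        rw [Matrix.one_apply_ne (Ne.symm hy), zero_mul]
      · intro h
        exact absurd (Finset.mem_univ _) h
    have hq : 0 ≤ (lam + 1 / μ) / 7 := by positivity
    have h1 := mass_all a ((lam + 1 / μ) / 7) hq n (by linarith) (by
      rw [hom0]
      unfold om
      rw [div_le_iff₀ hμ]
      have := (abs_le.1 (hD x)).2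
      linarith) (by
      rw [hom0]
      unfold om
      apply div_nonneg _ hμ.le
      have := (abs_le.1 (hD x)).1
      nlinarith) (fun k => mass_step hd hμ hε hε' hF hlam hT x k) n le_rfl
    have h2 := h1.2
    rw [hom0] at h2
    refine h2.trans ?_
    have h3 : 0 ≤ (n : ℝ) * (lam + 1 / μ) := by positivity
    have h4 : 2 * ((n : ℝ) * ((lam + 1 / μ) / 7)) = 2 / 7 * (n * (lam + 1 / μ)) := by ring
    have h5 : (KH d * (Real.exp 1 * (Real.exp 1 * (d.factorial * Real.exp 1))) + 1) * n *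
        (lam + 1 / μ) = (KH d * (Real.exp 1 * (Real.exp 1 * (d.factorial * Real.exp 1))) + 1) *
        (n * (lam + 1 / μ)) := by ring
    rw [h4, h5]
    exact mul_le_mul_of_nonneg_right (by linarith) h3
  · have h1 : ∀ y, (TM (z - lam) V ^ n) x y = ∑ j ∈ Finset.range (n + 1),
        ((lam / (8 * d)) ^ (n - j) * (n.choose j : ℝ)) * (TM z V ^ j) x y := fun y =>
      TM_pow z lam V n x y
    simp only [h1]
    refine (decay hd (KH d) (lam / (8 * d)) hK (by positivity) n ?_ (fun j y => (TM z V ^ j) x y)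
      ?_).trans ?_
    · have h2 : (n : ℝ) * (lam / (8 * d)) = n * lam / (8 * d) := by ring
      rw [h2]
      have h3 : (n : ℝ) * lam / (8 * d) ≤ n * lam / 8 :=
        div_le_div_of_nonneg_left (by positivity) (by norm_num) (by linarith)
      linarith
    · intro j hj
      exact hdec x j (by omega)
    · refine mul_le_mul_of_nonneg_right (by linarith) (Real.rpow_nonneg (by positivity) _)

end Pool.Agent.LE.IR.H19
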